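import Pool.Agent.Helper54.FP.Inst
import Pool.Agent.Helper55.FP.Left
import Pool.Agent.Helper97.FP.Trace

/-!
# FP-6: change of the base ring for fundamental matrices

`trace_expand`: the trace of a polynomial expression is a linear function of the coefficients.
`rel_baseChange`: relations over the bigger ring transfer.  `fm_baseChange`: base change of `FM`.
-/

set_option autoImplicit false
set_option linter.unusedSectionVars false

namespace Pool.Agent.Helper54.FP

section
variable {p : ℕ} [Fact p.Prime] {G : Type} [Group G] [Fintype G] [DecidableEq G]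

/-- the trace of `F * b`, for a polynomial `F` over the bigger ring, is a linear function of `F` -/
theorem bc_trace_expand {R R' Ω : Type} [CommRing R] [CommRing R'] [CommRing Ω]
    (α : R →+* R') {φ : R →+* Ω} {Y : Matrix G G Ω} {H : Subgroup G} [Fintype H]
    (h : FM p φ Y H) (b : MvPolynomial (G × G) R) :
    ∃ L : MvPolynomial (G × G) R' →ₗ[R'] R', ∀ (S : Type) [CommRing S] (ψ : R' →+* S)
      (YS : Matrix G G S), Rel φ Y (ψ.comp α) YS → ∀ F : MvPolynomial (G × G) R',
        ∑ g : H, ev ψ (actM (g : G) YS) (F * MvPolynomial.map α b) = ψ (L F) := by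
  have key : ∀ m : (G × G) →₀ ℕ, ∃ r : R,
      ev φ Y (∑ g : H, sh (g : G) (MvPolynomial.monomial m 1 * b)) = φ r := by
    intro m
    apply h.fix
    intro g hg
    rw [map_sum, map_sum]
    simp only [ev_sh, actM_actM]
    exact Fintype.sum_equiv (Equiv.mulLeft (⟨g, hg⟩ : H)) _ _ (fun x => rfl)
  choose r hr using key
  refine ⟨(MvPolynomial.basisMonomials (G × G) R').constr R' (fun m => α (r m)), ?_⟩
  intro S _ ψ YS hS F
  induction F using MvPolynomial.induction_on' with
  | monomial m c =>
    have h1 : MvPolynomial.monomial m c = c • (MvPolynomial.basisMonomials (G × G) R') m := by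
      rw [MvPolynomial.coe_basisMonomials, MvPolynomial.smul_monomial, smul_eq_mul, mul_one]
    have h2 : (MvPolynomial.basisMonomials (G × G) R').constr R' (fun m => α (r m))
        (MvPolynomial.monomial m c) = c * α (r m) := by
      rw [h1, map_smul, Module.Basis.constr_basis, smul_eq_mul]
    rw [h2]
    have h3 := hS.eq (F := ∑ g : H, sh (g : G) (MvPolynomial.monomial m 1 * b))
      (F' := MvPolynomial.C (r m)) (by rw [hr m, ev_C])
    rw [map_sum, ev_C] at h3
    simp only [ev_sh] at h3
    rw [map_mul, ← RingHom.comp_apply, ← h3, Finset.mul_sum]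
    refine Finset.sum_congr rfl (fun g _ => ?_)
    have h4 : (MvPolynomial.monomial m c : MvPolynomial (G × G) R') =
        MvPolynomial.C c * MvPolynomial.map α (MvPolynomial.monomial m 1) := by
      rw [MvPolynomial.map_monomial, map_one, MvPolynomial.C_mul_monomial, mul_one]
    rw [h4, mul_assoc, ← map_mul, map_mul, ev_C, ev_mapCoeff]
  | add F1 F2 ih1 ih2 =>
    rw [map_add, map_add, ← ih1, ← ih2, ← Finset.sum_add_distrib]
    refine Finset.sum_congr rfl (fun g _ => ?_)
    rw [add_mul, map_add]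

theorem rel_baseChange {R R' Ω S Ω2 : Type} [CommRing R] [CommRing R'] [CommRing Ω] [CommRing S]
    [CommRing Ω2] [CharP Ω p] (α : R →+* R') {φ : R →+* Ω} {Y : Matrix G G Ω} {H : Subgroup G}
    (h : FM p φ Y H) (ψ : R' →+* S) (hψ : Function.Injective ψ) (YS : Matrix G G S)
    (hS : Rel φ Y (ψ.comp α) YS)
    (hδ : ∀ g ∈ H, ∃ δ : S →+* S, δ.comp ψ = ψ ∧ YS.map δ = actM g YS)
    (φ2 : R' →+* Ω2) (Y2 : Matrix G G Ω2) (h2 : Rel φ Y (φ2.comp α) Y2) :
    Rel ψ YS φ2 Y2 := by
  have : Fintype H := Fintype.ofFinite H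
  obtain ⟨Z, -, hZ⟩ := fm_inv h
  choose L hL using fun i : G => bc_trace_expand α h (MvPolynomial.X (i, (1 : G)))
  intro F hF
  -- the traces vanish
  have hL0 : ∀ i, L i F = 0 := by
    intro i
    apply hψ
    rw [map_zero, ← hL i S ψ YS hS F]
    refine Finset.sum_eq_zero (fun g _ => ?_)
    obtain ⟨δ, hδ1, hδ2⟩ := hδ g g.2
    have := ev_map δ ψ YS F
    rw [hδ1, hδ2, hF, map_zero] at this
    rw [map_mul, ← this, zero_mul]
  -- the inverse matrix
  have hinv : ∀ g : G, ∑ i, ev (φ2.comp α) Y2 (Z 1 i) * Y2 i g = if g = 1 then 1 else 0 := by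
    intro g
    have h1 : ev φ Y (∑ i, Z 1 i * MvPolynomial.X (i, g)) =
        ev φ Y (MvPolynomial.C (if g = 1 then 1 else 0)) := by
      have h5 := congrFun (congrFun hZ 1) g
      rw [Matrix.mul_apply, Matrix.one_apply] at h5
      rw [map_sum, ev_C]
      simp only [map_mul, ev_X]
      simp only [Matrix.map_apply] at h5
      rw [h5]
      by_cases hg : g = 1
      · rw [if_pos hg, if_pos hg.symm, map_one]
      · rw [if_neg hg, if_neg (fun h => hg h.symm), map_zero]
    have h6 := h2.eq h1
    rw [map_sum, ev_C] at h6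
    simp only [map_mul, ev_X] at h6
    rw [h6]
    split_ifs
    · rw [map_one]
    · rw [map_zero]
  have hexp : ev φ2 Y2 F = ∑ i, φ2 (L i F) * ev (φ2.comp α) Y2 (Z 1 i) := by
    have h7 : ∀ i, φ2 (L i F) * ev (φ2.comp α) Y2 (Z 1 i) =
        ∑ g : H, ev φ2 (actM (g : G) Y2) F * (ev (φ2.comp α) Y2 (Z 1 i) * Y2 i g) := by
      intro i
      rw [← hL i Ω2 φ2 Y2 h2 F, Finset.sum_mul]
      refine Finset.sum_congr rfl (fun g _ => ?_)
      rw [map_mul, MvPolynomial.map_X, ev_X, actM_apply, mul_one]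
      ring
    rw [Finset.sum_congr rfl (fun i _ => h7 i), Finset.sum_comm]
    have h8 : ∀ g : H, ∑ i, ev φ2 (actM (g : G) Y2) F *
        (ev (φ2.comp α) Y2 (Z 1 i) * Y2 i g) = if g = 1 then ev φ2 Y2 F else 0 := by
      intro g
      rw [← Finset.mul_sum, hinv]
      by_cases hg : g = 1
      · subst hg
        simp
      · have : (g : G) ≠ 1 := fun h => hg (Subtype.ext h)
        rw [if_neg hg, if_neg this, mul_zero]
    rw [Finset.sum_congr rfl (fun g _ => h8 g)]
    simp
  rw [hexp]
  refine Finset.sum_eq_zero (fun i _ => ?_)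
  rw [hL0, map_zero, zero_mul]

theorem fm_baseChange {R R' Ω S : Type} [CommRing R] [CommRing R'] [CommRing Ω] [CommRing S]
    [CharP Ω p] [Nontrivial S] (α : R →+* R') {φ : R →+* Ω} (hφ : Function.Injective φ)
    {Y : Matrix G G Ω} {H : Subgroup G}
    (h : FM p φ Y H) (ψ : R' →+* S) (YS : Matrix G G S)
    (hS : Rel φ Y (ψ.comp α) YS)
    (hδ : ∀ g ∈ H, ∃ δ : S →+* S, δ.comp ψ = ψ ∧ YS.map δ = actM g YS) :
    FM p ψ YS H := by
  have : Fintype H := Fintype.ofFinite H
  obtain ⟨Z, hZ1, -⟩ := fm_inv h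
  refine ⟨?_, ?_, ?_, ?_⟩
  · -- unit
    have hYS : YS * Z.map (ev (ψ.comp α) YS) = 1 := by
      ext i j
      have h1 : ev φ Y (∑ l, MvPolynomial.X (i, l) * Z l j) =
          ev φ Y (MvPolynomial.C (if i = j then 1 else 0)) := by
        have h5 := congrFun (congrFun hZ1 i) j
        rw [Matrix.mul_apply, Matrix.one_apply] at h5
        simp only [Matrix.map_apply] at h5
        rw [map_sum, ev_C]
        simp only [map_mul, ev_X]
        rw [h5]
        split_ifs
        · rw [map_one]
        · rw [map_zero]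
      have h6 := hS.eq h1
      rw [map_sum, ev_C] at h6
      simp only [map_mul, ev_X] at h6
      rw [Matrix.mul_apply, Matrix.one_apply]
      simp only [Matrix.map_apply]
      rw [h6]
      split_ifs
      · rw [map_one]
      · rw [map_zero]
    have hYS' : Z.map (ev (ψ.comp α) YS) * YS = 1 := mul_eq_one_comm.mp hYS
    exact ⟨⟨YS, Z.map (ev (ψ.comp α) YS), hYS, hYS'⟩, rfl⟩
  · -- frob
    obtain ⟨Ψ, hΨ, hfr⟩ := h.frob
    refine ⟨Ψ.map α, ?_, ?_⟩
    · exact hΨ.map (RingHom.mapMatrix α)
    · ext i j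
      have h1 : ev φ Y (MvPolynomial.X (i, j) ^ p) =
          ev φ Y (∑ l, MvPolynomial.C (Ψ i l) * MvPolynomial.X (l, j)) := by
        have h5 := congrFun (congrFun hfr i) j
        rw [Matrix.mul_apply] at h5
        simp only [Matrix.map_apply] at h5
        rw [map_sum, map_pow, ev_X]
        simp only [map_mul, ev_X, ev_C]
        rw [h5]
      have h6 := hS.eq h1
      rw [map_sum, map_pow, ev_X] at h6
      simp only [map_mul, ev_X, ev_C] at h6
      rw [Matrix.mul_apply]
      simp only [Matrix.map_apply]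
      rw [h6]
      rfl
  · -- sym
    intro g hg F hF
    obtain ⟨δ, hδ1, hδ2⟩ := hδ g hg
    have := ev_map δ ψ YS F
    rw [hδ1, hδ2, hF, map_zero] at this
    exact this.symm
  · -- fix
    intro F hF
    obtain ⟨c, hc⟩ := fm_trace_one hφ h
    obtain ⟨L, hL⟩ := bc_trace_expand α h c
    refine ⟨L F, ?_⟩
    rw [← hL S ψ YS hS F]
    have h1 : ev φ Y (∑ g : H, sh (g : G) c) = ev φ Y (MvPolynomial.C 1) := by
      rw [map_sum, ev_C, map_one]
      simp only [ev_sh]
      exact hc
    have h6 := hS.eq h1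
    rw [map_sum, ev_C, map_one] at h6
    simp only [ev_sh] at h6
    calc ev ψ YS F = ev ψ YS F * ∑ g : H, ev (ψ.comp α) (actM (g : G) YS) c := by
          rw [h6, mul_one]
      _ = ∑ g : H, ev ψ (actM (g : G) YS) (F * MvPolynomial.map α c) := by
          rw [Finset.mul_sum]
          refine Finset.sum_congr rfl (fun g _ => ?_)
          rw [map_mul, ev_mapCoeff, hF g g.2]

end

end Pool.Agent.Helper54.FP
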